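import Pool.Agent.H559R4.SatEnc
import Pool.Agent.H559R4.Tcl2

/-!
# Circuits with few non-monotone gates need almost `2 ^ n` gates for CNF-SAT
-/

namespace Pool.Agent.H559R4

open Filter Pool.Agent.H520R2 Pool.Agent.H520R2.NM

/-- The lower bound with all its parameters. -/
theorem sat_lower2 {κ b ρ n M N : ℕ} (hκ : 2 ≤ κ) (hb : 2 ≤ b) (hn : (κ + 1) * b + ρ ≤ n)
    (hM : 2 ^ ρ * ((κ + 1) * 2 ^ b) ^ 2 ≤ M) (C : Circuit (Fin M × Fin n × Bool) N)
    (out : Wire (Fin M × Fin n × Bool) N)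
    (hC : ∀ φ, out.eval φ (C.vals φ) = true ↔ Sat φ)
    (hρ : (C.fanins.map (· + 1)).prod ≤ 2 ^ ρ) :
    2 ^ ((κ + 1) * b) / apx2 κ b ^ 2 ≤ C.size + C.fanins.sum := by
  classical
  by_contra hcon
  push Not at hcon
  have eb : Fin (2 ^ b) ≃ (Fin b → Bool) := Fintype.equivOfCardEq (by simp)
  have er : Fin (2 ^ ρ) ≃ (Fin ρ → Bool) := Fintype.equivOfCardEq (by simp)
  obtain ⟨vr⟩ : Nonempty ((Fin (κ + 1) × Fin b) ⊕ Fin ρ ↪ Fin n) :=
    Function.Embedding.nonempty_of_card_le (by simpa using hn)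
  obtain ⟨ψ⟩ : Nonempty (Fin (2 ^ ρ) × (Fin (κ + 1) × Fin (2 ^ b)) × (Fin (κ + 1) × Fin (2 ^ b)) ↪
      Fin M) :=
    Function.Embedding.nonempty_of_card_le (by
      simp only [Fintype.card_prod, Fintype.card_fin]
      rw [sq] at hM
      exact hM)
  have hn0 : 0 < n := by
    have : 0 < (κ + 1) * b := Nat.mul_pos (by omega) (by omega)
    omega
  have h := chain_gen (Y := SimpleGraph (Fin (κ + 1) × Fin (2 ^ b))) Tcl
    (not_tcl_bot (by omega)) (GB (Fin (κ + 1) × Fin (2 ^ b)))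
    (2 ^ ((κ + 1) * b) / apx2 κ b ^ 2)
    (fun s f hf hfT => tcl_lowerR hκ hb f hf hfT) (m := 2 ^ ρ)
    (encF eb er vr ψ) (fun y y' hy => encF_mono eb er vr ψ y y' hy)
    (fun y J f hf => encF_base eb er vr ψ y J f hf) C out
    (fun y => by rw [hC, encF_sat eb er vr ψ y hn0]) hcon
  omega

theorem main2_aux (δ : ℝ) (hδ : 0 < δ) (hδ1 : δ < 1) : ∃ c : ℕ, ∀ᶠ n : ℕ in atTop,
    ∀ {M N : ℕ} (C : Circuit (Fin M × Fin n × Bool) N) (out : Wire (Fin M × Fin n × Bool) N),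
      (∀ φ, out.eval φ (C.vals φ) = true ↔ Sat φ) →
      n ^ c * (C.fanins.map (· + 1)).prod ≤ M →
      (2 : ℝ) ^ ((1 - δ) * n) ≤
        ((C.size + C.fanins.sum : ℕ) : ℝ) * (((C.fanins.map (· + 1)).prod : ℕ) : ℝ) := by
  obtain ⟨c, hc⟩ := params2 δ hδ hδ1
  refine ⟨c, ?_⟩
  filter_upwards [hc, eventually_ge_atTop 1] with n hn hn1
  intro M N C out hC hM
  set P := (C.fanins.map (· + 1)).prod with hP
  have hP1 : 1 ≤ P := by
    rw [hP]
    apply List.one_le_prod_of_one_le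
    intro x hx
    obtain ⟨y, _, rfl⟩ := List.mem_map.1 hx
    omega
  rcases lt_or_ge (P : ℝ) (2 ^ ((1 - δ) * n)) with hlt | hge
  · obtain ⟨κ, b, h1, h2, h3, h4, h5⟩ := hn P hP1 hlt
    apply h5
    exact sat_lower2 h1 h2 h3 (h4.trans hM) C out hC (clog_bounds hP1).1
  · have hn0 : (0 : ℝ) < n := by exact_mod_cast hn1
    have h1 : (1 : ℝ) < 2 ^ ((1 - δ) * n) := by
      apply Real.one_lt_rpow (by norm_num)
      exact mul_pos (by linarith) hn0
    have h2 : P ≠ 1 := by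
      intro h
      rw [h, Nat.cast_one] at hge
      linarith
    have h3 := sum_pos_of_prod h2
    have h4 : (1 : ℝ) ≤ ((C.size + C.fanins.sum : ℕ) : ℝ) := by
      exact_mod_cast (by omega : 1 ≤ C.size + C.fanins.sum)
    calc (2 : ℝ) ^ ((1 - δ) * n) ≤ P := hge
      _ = 1 * (P : ℝ) := (one_mul _).symm
      _ ≤ _ := mul_le_mul_of_nonneg_right h4 (Nat.cast_nonneg _)

theorem main2 (δ : ℝ) (hδ : 0 < δ) : ∃ c : ℕ, ∀ᶠ n : ℕ in atTop,
    ∀ {M N : ℕ} (C : Circuit (Fin M × Fin n × Bool) N) (out : Wire (Fin M × Fin n × Bool) N),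
      (∀ φ, out.eval φ (C.vals φ) = true ↔ Sat φ) →
      n ^ c * (C.fanins.map (· + 1)).prod ≤ M →
      (2 : ℝ) ^ ((1 - δ) * n) ≤
        ((C.size + C.fanins.sum : ℕ) : ℝ) * (((C.fanins.map (· + 1)).prod : ℕ) : ℝ) := by
  obtain ⟨c, hc⟩ := main2_aux (min δ (1 / 2)) (by positivity)
    (lt_of_le_of_lt (min_le_right _ _) (by norm_num))
  refine ⟨c, ?_⟩
  filter_upwards [hc] with n hn
  intro M N C out hC hM
  refine le_trans ?_ (hn C out hC hM)
  apply Real.rpow_le_rpow_of_exponent_le (by norm_num)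
  apply mul_le_mul_of_nonneg_right _ (Nat.cast_nonneg _)
  have := min_le_left δ (1 / 2)
  linarith

end Pool.Agent.H559R4
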